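import Mathlib
import Pool.Agent.P07.KClosureAux

/-!
# No uniform total k-closure for non-alternating finite simple groups

For every `k` the simple group `PSL(2m, 3)` with `m = max k 4` is not totally `k`-closed: in its
action on the points of projective space, every permutation induced by the full general linear
group preserves all orbits on `k`-tuples of points, but a permutation induced by a linear map of
determinant `-1` is not induced by an element of `PSL(2m, 3)`.
-/

namespace Pool.Agent.Results.MP_d08dce_al.NoUniformClosure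

open scoped LinearAlgebra.Projectivization

/-- The `k`-closure of a group `G` in its action on `Ω`: the set of all permutations `x` of `Ω`
which, acting coordinatewise, map each `G`-orbit on the set `Ω^k` of ordered `k`-tuples to
itself. -/
def kClosure (k : ℕ) (G Ω : Type) [Group G] [MulAction G Ω] : Set (Equiv.Perm Ω) :=
  {x | ∀ t : Fin k → Ω,
    (fun (s : Fin k → Ω) (i : Fin k) => x (s i)) '' MulAction.orbit G t = MulAction.orbit G t}

/-- `G` is totally `k`-closed: in every faithful action of `G` on a finite set `Ω`, the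
`k`-closure of `G` is the group of permutations of `Ω` induced by `G`. -/
def IsTotallyClosed (k : ℕ) (G : Type) [Group G] : Prop :=
  ∀ (Ω : Type) [Finite Ω] [MulAction G Ω] [FaithfulSMul G Ω],
    kClosure k G Ω = Set.range (MulAction.toPermHom G Ω)

/-- A permutation agreeing on every `k`-tuple with some group element lies in the `k`-closure. -/
lemma mem_kClosure_of_forall {k : ℕ} {G Ω : Type} [Group G] [MulAction G Ω] (x : Equiv.Perm Ω)
    (hx : ∀ t : Fin k → Ω, ∃ g : G, ∀ i, g • t i = x (t i)) : x ∈ kClosure k G Ω := by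
  have hx' : ∀ t : Fin k → Ω, (fun i => x (t i)) ∈ MulAction.orbit G t := by
    intro t
    obtain ⟨g, hg⟩ := hx t
    exact ⟨g, funext hg⟩
  intro t
  ext s
  constructor
  · rintro ⟨r, hr, rfl⟩
    rw [← MulAction.orbit_eq_iff.mpr hr]
    exact hx' r
  · intro hs
    refine ⟨fun i => x.symm (s i), ?_, by simp⟩
    have h := hx' (fun i => x.symm (s i))
    simp only [Equiv.apply_symm_apply] at h
    rw [← MulAction.orbit_eq_iff.mpr hs, MulAction.mem_orbit_symm]
    exact h

/-- For every integer `k ≥ 1` there is a finite simple group, not isomorphic to any alternating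
group, which is not totally `k`-closed. -/
theorem result : ∀ k : ℕ, 1 ≤ k → ∃ (G : Type) (_ : Group G), Finite G ∧ IsSimpleGroup G ∧
    (∀ n : ℕ, IsEmpty (G ≃* alternatingGroup (Fin n))) ∧ ¬ IsTotallyClosed k G := by
  intro k _
  obtain ⟨m, hm4, hkm⟩ : ∃ m : ℕ, 4 ≤ m ∧ k ≤ m := ⟨max k 4, le_max_right _ _, le_max_left _ _⟩
  refine ⟨Matrix.ProjectiveSpecialLinearGroup (Fin m ⊕ Fin m) (ZMod 3), inferInstance,
    inferInstance, ?_, Pool.Agent.P07.PSL_not_alternating hm4, ?_⟩
  · refine Pool.Agent.P07.PSL_simple ?_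
    simp only [Fintype.card_sum, Fintype.card_fin]
    omega
  intro hclosed
  have hcard : Fintype.card (Fin m ⊕ Fin m) = m + m := by simp
  have hlt : 0 < Module.finrank (ZMod 3) ((Fin m ⊕ Fin m) → ZMod 3) := by
    simp; omega
  obtain ⟨g, hg, -⟩ := Pool.Agent.P07.exists_det_fix (F := ZMod 3)
    (V := (Fin m ⊕ Fin m) → ZMod 3) (k := 0) Fin.elim0 hlt (-1)
  have hmem : MulAction.toPerm g ∈ kClosure k
      (Matrix.ProjectiveSpecialLinearGroup (Fin m ⊕ Fin m) (ZMod 3))
      (ℙ (ZMod 3) ((Fin m ⊕ Fin m) → ZMod 3)) := by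
    refine mem_kClosure_of_forall _ fun t => ?_
    obtain ⟨s, hs⟩ := Pool.Agent.P07.exists_PSL_smul_eq (by omega) g t
    exact ⟨s, hs⟩
  have : Finite (ℙ (ZMod 3) ((Fin m ⊕ Fin m) → ZMod 3)) := inferInstance
  rw [hclosed] at hmem
  obtain ⟨s, hs⟩ := hmem
  obtain ⟨a, ha⟩ := Pool.Agent.P07.det_pow_of_smul_eq g s
    (fun p => by
      have := congrArg (fun e => e p) hs
      simpa using this)
  rw [hg, hcard, ← two_mul, pow_mul] at ha
  have hall : ∀ b : ZMod 3, b ^ 2 = 0 ∨ b ^ 2 = 1 := by decide
  have ha2 := hall a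
  rcases ha2 with h | h
  · rw [h, zero_pow (by omega)] at ha
    exact absurd ha (by decide)
  · rw [h, one_pow] at ha
    exact absurd ha (by decide)

end Pool.Agent.Results.MP_d08dce_al.NoUniformClosure
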